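import Pool.Agent.helper65.GD.SpecF

set_option autoImplicit false

/-! # Row XGB of the spec SpecF -/

namespace Pool.Agent.GD

open Finset

lemma XGB_sum1 (f : ℕ → ℂ) (n : ℕ) :
    ∑ i ∈ range (n + 1), (if i = n then (1 : ℂ) else 0) * f i = f n := by
  rw [Finset.sum_eq_single n]
  · rw [if_pos rfl, one_mul]
  · intro b _ hb
    rw [if_neg hb, zero_mul]
  · intro h
    exact absurd (mem_range.2 (Nat.lt_succ_self n)) h

lemma XGB_sum2 (f : ℕ → ℂ) (n : ℕ) :
    ‖∑ i ∈ Icc 1 n, (if i = n then (1 : ℂ) else 0) * f (i - 1)‖ = if n = 0 then 0 else ‖f (n - 1)‖ := by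
  rcases Nat.eq_zero_or_pos n with h | h
  · subst h
    simp
  · rw [if_neg (by omega : ¬ n = 0), Finset.sum_eq_single n]
    · rw [if_pos rfl, one_mul]
    · intro b _ hb
      rw [if_neg hb, zero_mul]
    · intro h2
      exact absurd (mem_Icc.2 ⟨h, le_refl n⟩) h2

theorem XGB (h1 : XEM_stmt) (h2 : XCB_stmt) (h3 : XAV_stmt) (h4 : XTB_stmt) : XGB_stmt := by
  intro N w x y hA hy
  obtain ⟨a, ha⟩ : ∃ a, a = ex (-1) (mom w x) := ⟨_, rfl⟩
  have hC : ∀ y' : ℂ, ‖y'‖ = 1 → Cara (gy a y') := fun y' hy' => by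
    rw [ha]
    exact h4 N w x y' hA hy'
  have h0 : ∀ y' : ℂ, ‖gy a y' 0‖ = 1 := by
    intro y'
    rw [gy_zero, ha, ex_zero, norm_one]
  have hb : ∀ y' : ℂ, ‖y'‖ = 1 → ∀ n, ‖gy a y' n‖ ≤ 2 := by
    intro y' hy' n
    rcases Nat.eq_zero_or_pos n with h | h
    · subst h
      rw [h0]
      norm_num
    · exact h2.2 _ n (hC y' hy') h
  have key : ∀ n, gy (ex (-2) (mom w x)) y n = cv a (gy a y) n := by
    intro n
    have e1 : ex (-2) (mom w x) = cv a a := by
      funext m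
      rw [ha, h1.1, show (-1 : ℂ) + -1 = -2 by norm_num]
    have e2 : gy a y = cv (fun m => y ^ m) a := by
      funext m
      exact gy_eq a y m
    rw [gy_eq, e1, ← cv_assoc, ← e2, cv_comm]
  have main : ∀ (n : ℕ) (M : ℝ),
      (∀ y' : ℂ, ‖y'‖ = 1 → ‖gy a y' n‖ + (if n = 0 then 0 else ‖gy a y' (n - 1)‖) ≤ M) →
      ‖gy (ex (-2) (mom w x)) y n‖ ≤ M := by
    intro n M hM
    have h5 := h3 a (fun i => if i = n then (1 : ℂ) else 0) (gy a y) n M (hC y hy) (fun y' hy' => by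
      show ‖∑ i ∈ range (n + 1), (if i = n then (1 : ℂ) else 0) * gy a y' i‖ +
        ‖∑ i ∈ Icc 1 n, (if i = n then (1 : ℂ) else 0) * gy a y' (i - 1)‖ ≤ M
      rw [XGB_sum1, XGB_sum2]
      exact hM y' hy')
    have h6 : ∑ i ∈ range (n + 1), (fun i => if i = n then (1 : ℂ) else 0) i * cv a (gy a y) i =
        cv a (gy a y) n := XGB_sum1 _ n
    rw [h6] at h5
    rw [key]
    exact h5
  refine ⟨fun n => main n 4 fun y' hy' => ?_, main 1 3 fun y' hy' => ?_⟩
  · split_ifs with h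
    · have := hb y' hy' n
      linarith
    · have e1 := hb y' hy' n
      have e2 := hb y' hy' (n - 1)
      linarith
  · rw [if_neg one_ne_zero, show 1 - 1 = 0 from rfl, h0]
    have := hb y' hy' 1
    linarith

end Pool.Agent.GD
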